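import Pool.Agent.H.MP_670a4f_lc.Omega1
import Pool.Agent.H.MP_670a4f_lc.St.Colour

/-!
# MP_670a4f_lc: the question for stationary sets

PROOF. Fix a ladder `x_0 < x_1 < ..` below every limit ordinal `x`. Let `m` be the first difference of the ladders of
`x < y`, assume `x_m < y_m`. The graph `G_n` consists of the pairs whose ladders interlock from `m` on in exactly
`2 (n - m + 1)` alternations: there are `m = q_0 < q_1 < ..` such that the block of `y` between the indices `q_j` and
`q_(j+1)` lies in the gap of `x` just below the index `q_(j+2)`, and from the index `q_(2(n-m+1))` on the ladder of `y` is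
above `x`. The graphs `G_n` are pairwise disjoint and triangle-free (St/Comb), and every stationary set contains an edge of `G_n`
for all but finitely many `n` (St/Types, St/Colour). The remaining pairs `x < y` are coloured with names of `y`; the sets of
names of different points are almost disjoint, and an edge of `G_n` is used only if `n` is not a name of its ends.
-/

set_option autoImplicit false

namespace Pool.Agent.H.MP_670a4f_lc.old.StationarySets

open Pool.Agent.H.MP_670a4f_lc Pool.Agent.H.MP_670a4f_lc.St Pool.Agent.H670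

/-- In ZFC there is a colouring of the pairs of countable ordinals by naturals with no monochromatic triangle such that on every
stationary set of countable ordinals all but finitely many colours occur. -/
theorem result :
    ∃ c : Sym2 {o : Ordinal.{0} // o < (Cardinal.aleph 1).ord} → ℕ,
      (∀ a b d : {o : Ordinal.{0} // o < (Cardinal.aleph 1).ord},
          a ≠ b → b ≠ d → a ≠ d →
          ¬ (c s(a, b) = c s(b, d) ∧ c s(b, d) = c s(a, d))) ∧
      (∀ X : Set {o : Ordinal.{0} // o < (Cardinal.aleph 1).ord},
          IsStationary X →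
          {n : ℕ | ¬ ∃ a ∈ X, ∃ b ∈ X, a ≠ b ∧ c s(a, b) = n}.Finite) := by
  obtain ⟨L, hL⟩ := exists_ladders
  obtain ⟨r, hr⟩ := om_real
  obtain ⟨e, he⟩ := exists_e
  have key : ∀ a b d : Om, a < b → b < d →
      ¬ (sym (g L r e) s(a, b) = sym (g L r e) s(b, d) ∧
        sym (g L r e) s(b, d) = sym (g L r e) s(a, d)) := by
    intro a b d hab hbd h
    rw [sym_of_lt _ hab, sym_of_lt _ hbd, sym_of_lt _ (lt_trans hab hbd)] at h
    exact g_triangle hL r he hab hbd h.1 h.2
  have hsw : ∀ u v : Om, sym (g L r e) s(u, v) = sym (g L r e) s(v, u) := fun u v => by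
    rw [Sym2.eq_swap]
  refine ⟨sym (g L r e), ?_, ?_⟩
  · intro a b d hab hbd had h
    obtain ⟨h1, h2⟩ := h
    rcases lt_or_gt_of_ne hab with ab | ab <;> rcases lt_or_gt_of_ne hbd with bd | bd <;>
      rcases lt_or_gt_of_ne had with ad | ad
    · exact key a b d ab bd ⟨h1, h2⟩
    · exact absurd (lt_trans ab bd) (lt_asymm ad)
    · exact key a d b ad bd ⟨h2.symm.trans (hsw b d), (hsw d b).trans h1.symm⟩
    · exact key d a b ad ab ⟨((hsw d a).trans h2.symm).trans h1.symm, h1.trans (hsw b d)⟩
    · exact key b a d ab ad ⟨(hsw b a).trans (h1.trans h2), h2.symm⟩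
    · exact key b d a bd ad ⟨h2.trans (hsw a d),
        ((hsw d a).trans h2.symm).trans (h1.symm.trans (hsw a b))⟩
    · exact absurd (lt_trans bd ab) (lt_asymm ad)
    · exact key d b a bd ab ⟨(hsw d b).trans (h1.symm.trans (hsw a b)),
        (hsw b a).trans ((h1.trans h2).trans (hsw a d))⟩
  · intro X hX
    obtain ⟨N, hN⟩ := g_stat hL hr e hX
    apply (Set.finite_Iio N).subset
    intro n hn
    by_contra hc
    obtain ⟨x, hx, y, hy, hxy, h⟩ := hN n (not_lt.1 hc)
    exact hn ⟨x, hx, y, hy, hxy.ne, by rw [sym_of_lt _ hxy]; exact h⟩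

end Pool.Agent.H.MP_670a4f_lc.old.StationarySets
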